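import Pool.Agent.H75.PRL.S2
import Pool.Agent.H69.RZ.USE

/-!
# The Poonen-Rains law, module CYM: cyclic vectors
-/

set_option autoImplicit false

namespace Pool.PRL

open Polynomial Matrix Pool.AVR Pool.AVS Pool.RZ

namespace CYM

section FieldPart

variable {k : Type} [Field k]

theorem cr (r0 r1 r2 s0 s1 s2 x0 x1 x2 y0 y1 y2 : k)
    (h1 : r0 * x0 + r1 * x1 + r2 * x2 = 0) (h2 : s0 * x0 + s1 * x1 + s2 * x2 = 0)
    (h3 : r0 * y0 + r1 * y1 + r2 * y2 = 0) (h4 : s0 * y0 + s1 * y1 + s2 * y2 = 0)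
    (hn : ¬ (r1 * s2 - r2 * s1 = 0 ∧ r2 * s0 - r0 * s2 = 0 ∧ r0 * s1 - r1 * s0 = 0)) :
    x1 * y2 - x2 * y1 = 0 ∧ x2 * y0 - x0 * y2 = 0 ∧ x0 * y1 - x1 * y0 = 0 := by
  set n0 := r1 * s2 - r2 * s1 with hn0
  set n1 := r2 * s0 - r0 * s2 with hn1
  set n2 := r0 * s1 - r1 * s0 with hn2
  have a01 : x0 * n1 - x1 * n0 = 0 := by
    rw [hn0, hn1]; linear_combination (-s2) * h1 + r2 * h2
  have a02 : x0 * n2 - x2 * n0 = 0 := by
    rw [hn0, hn2]; linear_combination s1 * h1 - r1 * h2
  have a12 : x1 * n2 - x2 * n1 = 0 := by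
    rw [hn1, hn2]; linear_combination (-s0) * h1 + r0 * h2
  have b01 : y0 * n1 - y1 * n0 = 0 := by
    rw [hn0, hn1]; linear_combination (-s2) * h3 + r2 * h4
  have b02 : y0 * n2 - y2 * n0 = 0 := by
    rw [hn0, hn2]; linear_combination s1 * h3 - r1 * h4
  have b12 : y1 * n2 - y2 * n1 = 0 := by
    rw [hn1, hn2]; linear_combination (-s0) * h3 + r0 * h4
  clear_value n0 n1 n2
  by_cases z0 : n0 = 0
  · by_cases z1 : n1 = 0
    · by_cases z2 : n2 = 0
      · exact absurd ⟨z0, z1, z2⟩ hn
      · subst z0 z1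
        have e0 : x0 = 0 := by
          have := a02
          simp only [mul_zero, sub_zero, mul_eq_zero] at this
          exact this.resolve_right z2
        have e1 : x1 = 0 := by
          have := a12
          simp only [mul_zero, sub_zero, mul_eq_zero] at this
          exact this.resolve_right z2
        have f0 : y0 = 0 := by
          have := b02
          simp only [mul_zero, sub_zero, mul_eq_zero] at this
          exact this.resolve_right z2
        have f1 : y1 = 0 := by
          have := b12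
          simp only [mul_zero, sub_zero, mul_eq_zero] at this
          exact this.resolve_right z2
        subst e0 e1 f0 f1
        refine ⟨by ring, by ring, by ring⟩
    · have e0 : x0 = x1 * n0 / n1 := by
        field_simp; linear_combination a01
      have e2 : x2 = x1 * n2 / n1 := by
        field_simp; linear_combination -a12
      have f0 : y0 = y1 * n0 / n1 := by
        field_simp; linear_combination b01
      have f2 : y2 = y1 * n2 / n1 := by
        field_simp; linear_combination -b12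
      rw [e0, e2, f0, f2]
      refine ⟨by ring, by ring, by ring⟩
  · have e1 : x1 = x0 * n1 / n0 := by
      field_simp; linear_combination -a01
    have e2 : x2 = x0 * n2 / n0 := by
      field_simp; linear_combination -a02
    have f1 : y1 = y0 * n1 / n0 := by
      field_simp; linear_combination -b01
    have f2 : y2 = y0 * n2 / n0 := by
      field_simp; linear_combination -b02
    rw [e1, e2, f1, f2]
    refine ⟨by ring, by ring, by ring⟩

theorem adj_or (A B : Matrix (Fin 3) (Fin 3) k) (h : A * B = 0) :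
    A.adjugate = 0 ∨ B.adjugate = 0 := by
  have hij : ∀ i j, A i 0 * B 0 j + A i 1 * B 1 j + A i 2 * B 2 j = 0 := by
    intro i j
    have := congrFun (congrFun h i) j
    rw [Matrix.mul_apply, Fin.sum_univ_three] at this
    exact this
  -- a pair of rows with nonzero cross product kills all cross products of columns
  have key : ∀ a b : Fin 3, ¬ (A a 1 * A b 2 - A a 2 * A b 1 = 0 ∧
      A a 2 * A b 0 - A a 0 * A b 2 = 0 ∧ A a 0 * A b 1 - A a 1 * A b 0 = 0) →
      ∀ c d : Fin 3, B 1 c * B 2 d - B 2 c * B 1 d = 0 ∧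
        B 2 c * B 0 d - B 0 c * B 2 d = 0 ∧ B 0 c * B 1 d - B 1 c * B 0 d = 0 := by
    intro a b hab c d
    exact cr _ _ _ _ _ _ _ _ _ _ _ _ (hij a c) (hij b c) (hij a d) (hij b d) hab
  by_cases hall : ∀ a b : Fin 3, (A a 1 * A b 2 - A a 2 * A b 1 = 0 ∧
      A a 2 * A b 0 - A a 0 * A b 2 = 0 ∧ A a 0 * A b 1 - A a 1 * A b 0 = 0)
  · left
    rw [Matrix.adjugate_fin_three]
    have h01 := hall 0 1
    have h02 := hall 0 2
    have h12 := hall 1 2
    ext i j
    fin_cases i <;> fin_cases j <;> simp <;> first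
      | linear_combination h12.1
      | linear_combination h12.2.1
      | linear_combination h12.2.2
      | linear_combination -h02.1
      | linear_combination -h02.2.1
      | linear_combination -h02.2.2
      | linear_combination h01.1
      | linear_combination h01.2.1
      | linear_combination h01.2.2
  · right
    push Not at hall
    obtain ⟨a, b, hab⟩ := hall
    have hk := key a b (by tauto)
    rw [Matrix.adjugate_fin_three]
    have h01 := hk 0 1
    have h02 := hk 0 2
    have h12 := hk 1 2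
    ext i j
    fin_cases i <;> fin_cases j <;> simp <;> first
      | linear_combination h12.1
      | linear_combination h12.2.1
      | linear_combination h12.2.2
      | linear_combination -h02.1
      | linear_combination -h02.2.1
      | linear_combination -h02.2.2
      | linear_combination h01.1
      | linear_combination h01.2.1
      | linear_combination h01.2.2

open Module in
theorem cyc_or (M : Matrix (Fin 3) (Fin 3) k) :
    (∃ v : Fin 3 → k, (Matrix.of ![v, M *ᵥ v, M *ᵥ (M *ᵥ v)]).det ≠ 0) ∨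
      ∃ c : Fin 3 → k, c ≠ 0 ∧
        c 0 • (1 : Matrix (Fin 3) (Fin 3) k) + c 1 • M + c 2 • (M * M) = 0 := by
  obtain ⟨x, hx⟩ := Module.exists_ker_toSpanSingleton_eq_annihilator k[X]
    (Module.AEval' (Matrix.toLin' M))
  obtain ⟨v, rfl⟩ := (Module.AEval'.of _).surjective x
  by_cases hd : (Matrix.of ![v, M *ᵥ v, M *ᵥ (M *ᵥ v)]).det = 0
  · right
    obtain ⟨c, hc0, hc⟩ := Matrix.exists_vecMul_eq_zero_iff.2 hd
    refine ⟨c, hc0, ?_⟩
    have hact : ∀ w : Fin 3 → k, (C (c 0) + C (c 1) * X + C (c 2) * X ^ 2 : k[X]) •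
        (Module.AEval'.of (Matrix.toLin' M) w) =
        Module.AEval'.of (Matrix.toLin' M)
          (c 0 • w + c 1 • (M *ᵥ w) + c 2 • (M *ᵥ (M *ᵥ w))) := by
      intro w
      rw [← Module.AEval.of_aeval_smul]
      congr 1
      simp [pow_two, Matrix.toLin'_apply]
    have h0 : c 0 • v + c 1 • (M *ᵥ v) + c 2 • (M *ᵥ (M *ᵥ v)) = 0 := by
      ext i
      have := congrFun hc i
      rw [Matrix.vecMul, dotProduct, Fin.sum_univ_three] at this
      simpa using this
    have hmem : (C (c 0) + C (c 1) * X + C (c 2) * X ^ 2 : k[X]) ∈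
        LinearMap.ker (LinearMap.toSpanSingleton k[X] _
          (Module.AEval'.of (Matrix.toLin' M) v)) := by
      rw [LinearMap.mem_ker, LinearMap.toSpanSingleton_apply, hact, h0, map_zero]
    rw [hx, Module.mem_annihilator] at hmem
    have hall : ∀ w : Fin 3 → k,
        c 0 • w + c 1 • (M *ᵥ w) + c 2 • (M *ᵥ (M *ᵥ w)) = 0 := by
      intro w
      have h1 := hmem (Module.AEval'.of (Matrix.toLin' M) w)
      rw [hact] at h1
      exact (LinearEquiv.map_eq_zero_iff _).1 h1
    apply Matrix.ext_iff_mulVec.2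
    intro w
    rw [Matrix.add_mulVec, Matrix.add_mulVec, Matrix.smul_mulVec, Matrix.smul_mulVec,
      Matrix.smul_mulVec, Matrix.one_mulVec, ← Matrix.mulVec_mulVec, Matrix.zero_mulVec]
    exact hall w
  · exact Or.inl ⟨v, hd⟩

/-- A quadratic relation gives an eigenvalue with eigenspace of dimension two. -/
theorem adj_of_rel (h2 : (2 : k) ≠ 0) (M : Matrix (Fin 3) (Fin 3) k) (c : Fin 3 → k)
    (hc : c ≠ 0)
    (h : c 0 • (1 : Matrix (Fin 3) (Fin 3) k) + c 1 • M + c 2 • (M * M) = 0) :
    ∃ μ : k, (M - μ • (1 : Matrix (Fin 3) (Fin 3) k)).adjugate = 0 := by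
  by_cases hc2 : c 2 = 0
  · rw [hc2, zero_smul, add_zero] at h
    have hc1 : c 1 ≠ 0 := by
      intro hc1
      rw [hc1, zero_smul, add_zero] at h
      have h00 := congrFun (congrFun h 0) 0
      simp only [Matrix.smul_apply, Matrix.one_apply_eq, smul_eq_mul, mul_one,
        Matrix.zero_apply] at h00
      apply hc
      ext i
      fin_cases i <;> simp_all
    refine ⟨-(c 0 / c 1), ?_⟩
    have hM : M - (-(c 0 / c 1)) • (1 : Matrix (Fin 3) (Fin 3) k) = 0 := by
      have : (c 1)⁻¹ • (c 0 • (1 : Matrix (Fin 3) (Fin 3) k) + c 1 • M) = 0 := by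
        rw [h, smul_zero]
      rw [smul_add, smul_smul, smul_smul, inv_mul_cancel₀ hc1, one_smul] at this
      rw [neg_smul, sub_neg_eq_add, add_comm, div_eq_inv_mul]
      exact this
    rw [hM, Matrix.adjugate_zero]
  · set p : k := c 1 / c 2 with hp
    set q : k := c 0 / c 2 with hq
    have hrel : M * M + p • M + q • (1 : Matrix (Fin 3) (Fin 3) k) = 0 := by
      have : (c 2)⁻¹ • (c 0 • (1 : Matrix (Fin 3) (Fin 3) k) + c 1 • M + c 2 • (M * M)) = 0 := by
        rw [h, smul_zero]
      rw [smul_add, smul_add, smul_smul, smul_smul, smul_smul, inv_mul_cancel₀ hc2,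
        one_smul] at this
      rw [hp, hq, div_eq_inv_mul, div_eq_inv_mul, ← this]
      abel
    obtain ⟨N, hN⟩ : ∃ N : Matrix (Fin 3) (Fin 3) k, N = M + (p / 2) • 1 := ⟨_, rfl⟩
    set D : k := (p / 2) ^ 2 - q with hD
    have hNN : N * N = D • (1 : Matrix (Fin 3) (Fin 3) k) := by
      have e1 : N * N = (M * M + p • M + q • (1 : Matrix (Fin 3) (Fin 3) k)) +
          D • (1 : Matrix (Fin 3) (Fin 3) k) := by
        rw [hN, hD, mul_add, add_mul, add_mul]
        simp only [Matrix.smul_mul, Matrix.mul_smul, Matrix.one_mul, Matrix.mul_one, smul_smul,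
          sub_smul]
        have : p • M = (p / 2) • M + (p / 2) • M := by
          rw [← add_smul]
          congr 1
          field_simp
          ring
        rw [this, pow_two]
        abel
      rw [e1, hrel, zero_add]
    have hdet : N.det ^ 2 = D ^ 3 := by
      have := congrArg Matrix.det hNN
      rw [Matrix.det_mul, Matrix.det_smul, Matrix.det_one, mul_one, Fintype.card_fin] at this
      rw [pow_two, this]
    obtain ⟨s, hs⟩ : ∃ s : k, s ^ 2 = D := by
      by_cases hD0 : D = 0
      · exact ⟨0, by rw [hD0]; ring⟩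
      · refine ⟨N.det / D, ?_⟩
        rw [div_pow, hdet]
        field_simp
    have hprod : (N - s • (1 : Matrix (Fin 3) (Fin 3) k)) *
        (N + s • (1 : Matrix (Fin 3) (Fin 3) k)) = 0 := by
      rw [sub_mul, mul_add, mul_add, hNN]
      simp only [Matrix.smul_mul, Matrix.mul_smul, Matrix.one_mul, Matrix.mul_one, smul_smul,
        ← hs, pow_two]
      abel
    rcases adj_or _ _ hprod with h1 | h1
    · refine ⟨s - p / 2, ?_⟩
      rw [← h1]
      congr 1
      rw [hN, sub_smul]
      abel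
    · refine ⟨-s - p / 2, ?_⟩
      rw [← h1]
      congr 1
      rw [hN, sub_smul, neg_smul]
      abel

end FieldPart

section Lift

variable {R : Type} [CommRing R]

/-- The sum of the principal minors. -/
def E2 (N : Matrix (Fin 3) (Fin 3) R) : R :=
  N 0 0 * N 1 1 - N 0 1 * N 1 0 + (N 0 0 * N 2 2 - N 0 2 * N 2 0) +
    (N 1 1 * N 2 2 - N 1 2 * N 2 1)

def E1 (N : Matrix (Fin 3) (Fin 3) R) : R := N 0 0 + N 1 1 + N 2 2

theorem charpoly_three (N : Matrix (Fin 3) (Fin 3) R) :
    N.charpoly = cub (-E1 N) (E2 N) (-N.det) := by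
  rw [Matrix.charpoly, Matrix.det_fin_three, Matrix.det_fin_three]
  simp only [Matrix.charmatrix_apply, Matrix.diagonal_apply, cub, E1, E2]
  simp only [Fin.isValue, Fin.reduceEq, if_true, if_false, map_neg, map_add, map_sub,
    map_mul, zero_sub]
  ring

theorem disc_shift (N : Matrix (Fin 3) (Fin 3) R) (μ : R) :
    disc (-E1 N) (E2 N) (-N.det) =
      disc (-E1 (N - μ • (1 : Matrix (Fin 3) (Fin 3) R)))
        (E2 (N - μ • (1 : Matrix (Fin 3) (Fin 3) R)))
        (-(N - μ • (1 : Matrix (Fin 3) (Fin 3) R)).det) := by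
  have h1 : -E1 (N - μ • (1 : Matrix (Fin 3) (Fin 3) R)) = -E1 N + 3 * μ := by
    simp [E1]
    ring
  have h2 : E2 (N - μ • (1 : Matrix (Fin 3) (Fin 3) R)) =
      E2 N + 2 * (-E1 N) * μ + 3 * μ ^ 2 := by
    simp [E2, E1]
    ring
  have h3 : -(N - μ • (1 : Matrix (Fin 3) (Fin 3) R)).det =
      -N.det + E2 N * μ + (-E1 N) * μ ^ 2 + μ ^ 3 := by
    rw [Matrix.det_fin_three, Matrix.det_fin_three]
    simp [E2, E1]
    ring
  rw [h1, h2, h3]
  unfold disc
  ring

theorem disc_dvd (P a b c : R) (h1 : P ∣ b) (h2 : P ^ 2 ∣ c) : P ^ 2 ∣ disc a b c := by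
  obtain ⟨β, rfl⟩ := h1
  obtain ⟨γ, rfl⟩ := h2
  exact ⟨a ^ 2 * β ^ 2 - 4 * P * β ^ 3 - 4 * a ^ 3 * γ + 18 * a * P * β * γ -
    27 * P ^ 2 * γ ^ 2, by unfold disc; ring⟩

theorem E2_adj (N : Matrix (Fin 3) (Fin 3) R) :
    E2 N = N.adjugate 0 0 + N.adjugate 1 1 + N.adjugate 2 2 := by
  rw [Matrix.adjugate_fin_three]
  simp [E2]
  ring

theorem dvd_of_adj [IsDomain R] {P : R} (hP : Prime P) (N : Matrix (Fin 3) (Fin 3) R)
    (h : ∀ i j, P ∣ N.adjugate i j) : P ∣ E2 N ∧ P ^ 2 ∣ N.det := by
  constructor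
  · rw [E2_adj]
    exact dvd_add (dvd_add (h 0 0) (h 1 1)) (h 2 2)
  · choose A hA using h
    have h1 : N.adjugate = P • Matrix.of A := by
      ext i j
      rw [Matrix.smul_apply, Matrix.of_apply, smul_eq_mul, hA]
    have h2 : N.det ^ 2 = P ^ 3 * (Matrix.of A).det := by
      have := Matrix.det_adjugate N
      rw [h1, Matrix.det_smul, Fintype.card_fin] at this
      rw [this]
    have h3 : P ∣ N.det := by
      apply hP.dvd_of_dvd_pow (n := 2)
      rw [h2]
      exact ⟨P ^ 2 * (Matrix.of A).det, by ring⟩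
    obtain ⟨e, he⟩ := h3
    have h4 : e ^ 2 = P * (Matrix.of A).det := by
      have h5 : P ^ 2 * (e ^ 2) = P ^ 2 * (P * (Matrix.of A).det) := by
        rw [he] at h2
        linear_combination h2
      exact mul_left_cancel₀ (pow_ne_zero 2 hP.ne_zero) h5
    have h6 : P ∣ e := hP.dvd_of_dvd_pow (n := 2) (h4 ▸ dvd_mul_right _ _)
    obtain ⟨e', rfl⟩ := h6
    exact ⟨e', by rw [he]; ring⟩

end Lift

/-- The statement for matrices of polynomials. -/
theorem poly_case {F : Type} [Field F] (h2 : (2 : F) ≠ 0) (P : F[X]) (hP : Irreducible P)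
    (N : Matrix (Fin 3) (Fin 3) F[X]) :
    (∃ v : Fin 3 → F[X], ¬ P ∣ (Matrix.of ![v, N *ᵥ v, N *ᵥ (N *ᵥ v)]).det) ∨
      P ^ 2 ∣ disc (-E1 N) (E2 N) (-N.det) := by
  have : Fact (Irreducible P) := ⟨hP⟩
  let π : F[X] →+* AdjoinRoot P := AdjoinRoot.mk P
  have hπ : ∀ x : F[X], π x = 0 ↔ P ∣ x := fun x => AdjoinRoot.mk_eq_zero
  have h2' : (2 : AdjoinRoot P) ≠ 0 := by
    have : (2 : AdjoinRoot P) = algebraMap F (AdjoinRoot P) 2 := by
      rw [map_ofNat]
    rw [this]
    intro h
    exact h2 ((map_eq_zero _).1 h)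
  rcases cyc_or (N.map π) with ⟨v, hv⟩ | ⟨c, hc0, hc⟩
  · left
    obtain ⟨w, hw⟩ : ∃ w : Fin 3 → F[X], (fun i => π (w i)) = v := by
      choose w hw using fun i => AdjoinRoot.mk_surjective (g := P) (v i)
      exact ⟨w, funext hw⟩
    refine ⟨w, fun hd => hv ?_⟩
    rw [← hπ, RingHom.map_det] at hd
    rw [← hd]
    congr 1
    have e1 : ∀ u : Fin 3 → F[X], (fun i => π ((N *ᵥ u) i)) =
        (N.map π) *ᵥ (fun i => π (u i)) := by
      intro u
      ext i
      simp [Matrix.mulVec, dotProduct, map_sum, map_mul]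
    ext i j
    fin_cases i
    · simp [← hw]
    · have := congrFun (e1 w) j
      simp [← hw, this]
    · have h3 := congrFun (e1 (N *ᵥ w)) j
      have h4 := e1 w
      change (N.map π *ᵥ (N.map π *ᵥ v)) j = π ((N *ᵥ (N *ᵥ w)) j)
      rw [← hw, ← h4]
      exact h3.symm
  · right
    obtain ⟨μ', hμ'⟩ := adj_of_rel h2' (N.map π) c hc0 hc
    obtain ⟨μ, rfl⟩ := AdjoinRoot.mk_surjective (g := P) μ'
    have h3 : ∀ i j, P ∣ (N - μ • (1 : Matrix (Fin 3) (Fin 3) F[X])).adjugate i j := by
      intro i j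
      rw [← hπ]
      have h4 : ((N - μ • (1 : Matrix (Fin 3) (Fin 3) F[X])).adjugate).map π =
          (N.map π - (π μ) • (1 : Matrix (Fin 3) (Fin 3) (AdjoinRoot P))).adjugate := by
        have h5 := RingHom.map_adjugate π (N - μ • (1 : Matrix (Fin 3) (Fin 3) F[X]))
        rw [RingHom.mapMatrix_apply, RingHom.mapMatrix_apply] at h5
        rw [h5]
        congr 1
        ext i j
        simp [Matrix.one_apply, apply_ite π]
      have h6 := congrFun (congrFun h4 i) j
      rw [hμ'] at h6
      simpa using h6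
    obtain ⟨h7, h8⟩ := dvd_of_adj hP.prime _ h3
    rw [disc_shift N μ]
    exact disc_dvd P _ _ _ h7 ((dvd_neg).2 h8)

end CYM

open CYM in
theorem cym : CYMStmt := by
  intro F _ _ h2 P hPm hP M a b c hM hch hdisc
  -- clear denominators
  obtain ⟨D, N, hD, hN⟩ : ∃ (D : F[X]) (N : Matrix (Fin 3) (Fin 3) F[X]), ¬ P ∣ D ∧
      ∀ i j, rf (N i j) = rf D * M i j := by
    have hdv : ∀ i j, (M i j).denom ∣ ∏ i, ∏ j, (M i j).denom := fun i j =>
      (Finset.dvd_prod_of_mem (fun j => (M i j).denom) (Finset.mem_univ j)).trans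
        (Finset.dvd_prod_of_mem (fun i => ∏ j, (M i j).denom) (Finset.mem_univ i))
    choose q hq using hdv
    refine ⟨∏ i, ∏ j, (M i j).denom, Matrix.of fun i j => (M i j).num * q i j, ?_, ?_⟩
    · rw [hP.prime.dvd_finsetProd_iff]
      rintro ⟨i, _, hi⟩
      rw [hP.prime.dvd_finsetProd_iff] at hi
      obtain ⟨j, _, hj⟩ := hi
      exact hM i j hj
    · intro i j
      have h4 : rf (M i j).denom ≠ 0 := by simpa using (M i j).denom_ne_zero
      have h5 : M i j = rf (M i j).num / rf (M i j).denom := (RatFunc.num_div_denom _).symm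
      have h6 : M i j * rf (M i j).denom = rf (M i j).num := by
        nth_rewrite 1 [h5]
        exact div_mul_cancel₀ _ h4
      have e1 : rf ((M i j).num * q i j) = rf (M i j).num * rf (q i j) := map_mul _ _ _
      have e2 : rf ((M i j).denom * q i j) = rf (M i j).denom * rf (q i j) := map_mul _ _ _
      rw [Matrix.of_apply, hq i j, e1, e2, ← h6]
      ring
  have hD0 : D ≠ 0 := fun h => hD (h ▸ dvd_zero P)
  have hDK : rf D ≠ 0 := by simpa using hD0
  have hN' : ∀ i j, (algebraMap F[X] (RatFunc F)) (N i j) = rf D * M i j := hN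
  have hMN : M = (rf D)⁻¹ • N.map (algebraMap F[X] (RatFunc F)) := by
    ext i j
    rw [Matrix.smul_apply, Matrix.map_apply, smul_eq_mul, hN' i j, inv_mul_cancel_left₀ hDK]
  rcases poly_case h2 P hP N with ⟨v, hv⟩ | hdv
  · refine ⟨fun i => rf (v i), fun i => USE.mem_IP_rf hP _, ?_⟩
    have hdet : (Matrix.of ![fun i => rf (v i), M *ᵥ (fun i => rf (v i)),
        M *ᵥ (M *ᵥ (fun i => rf (v i)))]).det =
        rf (Matrix.of ![v, N *ᵥ v, N *ᵥ (N *ᵥ v)]).det / rf (D ^ 3) := by
      have e1 : ∀ u : Fin 3 → F[X], M *ᵥ (fun i => rf (u i)) =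
          (rf D)⁻¹ • (fun i => rf ((N *ᵥ u) i)) := by
        intro u
        rw [hMN, Matrix.smul_mulVec]
        congr 1
        ext i
        simp [Matrix.mulVec, dotProduct, map_sum, map_mul]
      rw [e1 v, Matrix.mulVec_smul, e1 (N *ᵥ v)]
      rw [show rf (Matrix.of ![v, N *ᵥ v, N *ᵥ (N *ᵥ v)]).det =
        ((algebraMap F[X] (RatFunc F)).mapMatrix
          (Matrix.of ![v, N *ᵥ v, N *ᵥ (N *ᵥ v)])).det from RingHom.map_det _ _]
      rw [Matrix.det_fin_three, Matrix.det_fin_three]
      simp only [Matrix.of_apply, Matrix.cons_val_zero, Matrix.cons_val_one, Matrix.cons_val,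
        Pi.smul_apply, smul_eq_mul, RingHom.mapMatrix_apply, Matrix.map_apply, map_pow]
      field_simp
    rw [hdet]
    have hδ0 : (Matrix.of ![v, N *ᵥ v, N *ᵥ (N *ᵥ v)]).det ≠ 0 :=
      fun h => hv (h ▸ dvd_zero P)
    have hδK : rf (Matrix.of ![v, N *ᵥ v, N *ᵥ (N *ᵥ v)]).det ≠ 0 := by simpa using hδ0
    have hD3 : rf (D ^ 3) ≠ 0 := by simpa using hD0
    refine ⟨div_ne_zero hδK hD3, USE.mem_IP_div ?_, ?_⟩
    · exact fun h => hD (hP.prime.dvd_of_dvd_pow h)
    · rw [inv_div]
      exact USE.mem_IP_div hv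
  · exfalso
    apply hdisc
    have hcp := charpoly_three M
    rw [hch] at hcp
    have hco : ∀ x y z x' y' z' : RatFunc F, cub x y z = cub x' y' z' →
        x = x' ∧ y = y' ∧ z = z' := by
      intro x y z x' y' z' h
      refine ⟨?_, ?_, ?_⟩
      · have := congrArg (fun p => p.coeff 2) h
        simpa [cub, coeff_X, coeff_C] using this
      · have := congrArg (fun p => p.coeff 1) h
        simpa [cub, coeff_X, coeff_C] using this
      · have := congrArg (fun p => p.coeff 0) h
        simpa [cub, coeff_X, coeff_C] using this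
    obtain ⟨ha, hb, hc⟩ := hco _ _ _ _ _ _ hcp
    have h1 : disc a b c * rf D ^ 6 = rf (disc (-E1 N) (E2 N) (-N.det)) := by
      have ea : a * rf D = rf (-E1 N) := by
        rw [ha]
        simp only [E1, map_neg, map_add]
        rw [hN', hN', hN']
        ring
      have eb : b * rf D ^ 2 = rf (E2 N) := by
        rw [hb]
        simp only [E2, map_sub, map_add, map_mul]
        rw [hN', hN', hN', hN', hN', hN', hN', hN', hN']
        ring
      have ec : c * rf D ^ 3 = rf (-N.det) := by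
        rw [hc, Matrix.det_fin_three, Matrix.det_fin_three]
        simp only [map_neg, map_sub, map_add, map_mul]
        rw [hN', hN', hN', hN', hN', hN', hN', hN', hN']
        ring
      have e4 : rf (disc (-E1 N) (E2 N) (-N.det)) =
          disc (rf (-E1 N)) (rf (E2 N)) (rf (-N.det)) := by
        unfold disc rf
        simp only [map_sub, map_add, map_mul, map_pow, map_ofNat]
      rw [e4, ← ea, ← eb, ← ec]
      unfold disc
      ring
    obtain ⟨q, hq⟩ := hdv
    have hPK : rf P ≠ 0 := by simpa using hP.ne_zero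
    have h3 : disc a b c / rf P ^ 2 = rf q / rf (D ^ 6) := by
      have hD6 : rf (D ^ 6) ≠ 0 := by simpa using hD0
      have e1 : rf (D ^ 6) = rf D ^ 6 := map_pow _ _ _
      have e2 : rf (P ^ 2 * q) = rf P ^ 2 * rf q := by
        rw [rf, map_mul, map_pow]
      rw [div_eq_div_iff (pow_ne_zero 2 hPK) hD6, e1, h1, hq, e2]
      ring
    rw [h3]
    exact USE.mem_IP_div fun h => hD (hP.prime.dvd_of_dvd_pow h)

end Pool.PRL
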