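import Pool.Agent.H75.PRL.S2
import Pool.Agent.H33.AVR.COR

/-!
# The Poonen-Rains law, module SCD: the substitution `X ↦ d X`
-/

set_option autoImplicit false

namespace Pool.PRL

open Polynomial Matrix Pool.AVR Pool.AVS Pool.RZ

namespace SCD

section General

variable {K : Type} [Field K]

/-- The substitution `X ↦ X / δ`. -/
noncomputable def sc (δ : K) (h : K[X]) : K[X] := h.comp (C δ⁻¹ * X)

theorem sc_comp {δ : K} (hδ : δ ≠ 0) (h : K[X]) : (sc δ h).comp (C δ * X) = h := by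
  rw [sc, comp_assoc]
  have : (C δ⁻¹ * X : K[X]).comp (C δ * X) = X := by
    rw [mul_comp, C_comp, X_comp, ← mul_assoc, ← C_mul, inv_mul_cancel₀ hδ, C_1, one_mul]
  rw [this, comp_X]

theorem comp_sc {δ : K} (hδ : δ ≠ 0) (h : K[X]) : sc δ (h.comp (C δ * X)) = h := by
  rw [sc, comp_assoc]
  have : (C δ * X : K[X]).comp (C δ⁻¹ * X) = X := by
    rw [mul_comp, C_comp, X_comp, ← mul_assoc, ← C_mul, mul_inv_cancel₀ hδ, C_1, one_mul]
  rw [this, comp_X]

theorem cub_comp (δ a b c : K) :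
    (cub (δ * a) (δ ^ 2 * b) (δ ^ 3 * c)).comp (C δ * X) = C (δ ^ 3) * cub a b c := by
  unfold cub
  simp only [add_comp, mul_comp, pow_comp, C_comp, X_comp, C_mul, C_pow]
  ring

theorem sc_mul (δ : K) (p q : K[X]) : sc δ (p * q) = sc δ p * sc δ q := mul_comp _ _ _

theorem dvd_iff {δ : K} (hδ : δ ≠ 0) (a b c : K) (p : K[X]) :
    cub (δ * a) (δ ^ 2 * b) (δ ^ 3 * c) ∣ p ↔ cub a b c ∣ p.comp (C δ * X) := by
  constructor
  · rintro ⟨q, rfl⟩
    rw [mul_comp, cub_comp]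
    exact ⟨C (δ ^ 3) * q.comp (C δ * X), by ring⟩
  · rintro ⟨q, hq⟩
    have h1 := congrArg (sc δ) hq
    rw [comp_sc hδ, sc_mul] at h1
    have h2 := congrArg (sc δ) (cub_comp δ a b c)
    rw [comp_sc hδ, sc_mul] at h2
    have h3 : sc δ (C (δ ^ 3)) = C (δ ^ 3) := C_comp
    rw [h3] at h2
    refine ⟨C ((δ ^ 3)⁻¹) * sc δ q, ?_⟩
    rw [h2, h1]
    have h4 : (C (δ ^ 3) : K[X]) * C ((δ ^ 3)⁻¹) = 1 := by
      rw [← C_mul, mul_inv_cancel₀ (pow_ne_zero 3 hδ), C_1]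
    linear_combination (-(sc δ (cub a b c) * sc δ q)) * h4

theorem tau_comp {δ : K} (a b c : K) (p : K[X]) :
    tau a b c (p.comp (C δ * X)) = δ ^ 2 * tau (δ * a) (δ ^ 2 * b) (δ ^ 3 * c) p := by
  set m := cub (δ * a) (δ ^ 2 * b) (δ ^ 3 * c) with hm
  have hmon : m.Monic := COR.cub_monic _ _ _
  have h1 := modByMonic_add_div p m
  set r := p %ₘ m with hr
  have hdeg : r.degree < 3 := by
    rw [hr, ← COR.cub_degree (δ * a) (δ ^ 2 * b) (δ ^ 3 * c)]
    exact degree_modByMonic_lt _ hmon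
  have h2 : p.comp (C δ * X) = r.comp (C δ * X) +
      cub a b c * (C (δ ^ 3) * (p /ₘ m).comp (C δ * X)) := by
    conv_lhs => rw [← h1]
    rw [add_comp, mul_comp, hm, cub_comp]
    ring
  have h3 : tau a b c (p.comp (C δ * X)) = tau a b c (r.comp (C δ * X)) := by
    rw [← COR.T_mk, ← COR.T_mk, h2, map_add, map_mul, AdjoinRoot.mk_self, zero_mul, add_zero]
  rw [h3, COR.tau_of_lt, comp_C_mul_X_coeff]
  · rw [tau, ← hm, ← hr]
    ring
  · refine (degree_lt_iff_coeff_zero _ 3).2 ?_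
    intro n hn
    rw [comp_C_mul_X_coeff, coeff_eq_zero_of_degree_lt (hdeg.trans_le (by exact_mod_cast hn)),
      zero_mul]

theorem coprime_iff {δ : K} (hδ : δ ≠ 0) (a b c : K) (h : K[X]) :
    IsCoprime (sc δ h) (cub (δ * a) (δ ^ 2 * b) (δ ^ 3 * c)) ↔ IsCoprime h (cub a b c) := by
  have hu : (C (δ ^ 3) : K[X]) * C ((δ ^ 3)⁻¹) = 1 := by
    rw [← C_mul, mul_inv_cancel₀ (pow_ne_zero 3 hδ), C_1]
  constructor
  · rintro ⟨u, v, huv⟩
    refine ⟨u.comp (C δ * X), v.comp (C δ * X) * C (δ ^ 3), ?_⟩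
    have h1 := congrArg (fun p : K[X] => p.comp (C δ * X)) huv
    simp only [add_comp, mul_comp, one_comp, sc_comp hδ, cub_comp] at h1
    linear_combination h1
  · rintro ⟨u, v, huv⟩
    have h2 := congrArg (sc δ) (cub_comp δ a b c)
    rw [comp_sc hδ, sc_mul] at h2
    have h3 : sc δ (C (δ ^ 3)) = C (δ ^ 3) := C_comp
    rw [h3] at h2
    refine ⟨sc δ u, sc δ v * C ((δ ^ 3)⁻¹), ?_⟩
    have h1 := congrArg (sc δ) huv
    have h4 : sc δ (u * h + v * cub a b c) = sc δ u * sc δ h + sc δ v * sc δ (cub a b c) := by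
      rw [sc, add_comp, mul_comp, mul_comp]
      rfl
    have h5 : sc δ 1 = (1 : K[X]) := one_comp
    rw [h4, h5] at h1
    rw [h2]
    linear_combination h1 + sc δ v * sc δ (cub a b c) * hu

/-- The isomorphism of the algebras. -/
noncomputable def fwd {δ : K} (hδ : δ ≠ 0) (a b c : K) :
    AdjoinRoot (cub a b c) →ₐ[K] AdjoinRoot (cub (δ * a) (δ ^ 2 * b) (δ ^ 3 * c)) :=
  Ideal.Quotient.liftₐ _ ((AdjoinRoot.mkₐ _).comp (Polynomial.aeval (C δ⁻¹ * X : K[X]))) (by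
    intro p hp
    rw [Ideal.mem_span_singleton] at hp
    change AdjoinRoot.mk _ (Polynomial.aeval (C δ⁻¹ * X : K[X]) p) = 0
    rw [AdjoinRoot.mk_eq_zero]
    have : (Polynomial.aeval (C δ⁻¹ * X : K[X])) p = sc δ p := by
      rw [sc, Polynomial.comp, aeval_def]
      rfl
    rw [this, dvd_iff hδ, sc_comp hδ]
    exact hp)

theorem fwd_mk {δ : K} (hδ : δ ≠ 0) (a b c : K) (h : K[X]) :
    fwd hδ a b c (AdjoinRoot.mk _ h) = AdjoinRoot.mk _ (sc δ h) := rfl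

theorem fwd_bij {δ : K} (hδ : δ ≠ 0) (a b c : K) : Function.Bijective (fwd hδ a b c) := by
  constructor
  · rw [injective_iff_map_eq_zero]
    intro x hx
    obtain ⟨h, rfl⟩ := AdjoinRoot.mk_surjective x
    rw [fwd_mk, AdjoinRoot.mk_eq_zero, dvd_iff hδ, sc_comp hδ] at hx
    rwa [AdjoinRoot.mk_eq_zero]
  · intro y
    obtain ⟨p, rfl⟩ := AdjoinRoot.mk_surjective y
    exact ⟨AdjoinRoot.mk _ (p.comp (C δ * X)), by rw [fwd_mk, comp_sc hδ]⟩

theorem norm_sc {δ : K} (hδ : δ ≠ 0) (a b c : K) (h : K[X]) :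
    Algebra.norm K (AdjoinRoot.mk (cub (δ * a) (δ ^ 2 * b) (δ ^ 3 * c)) (sc δ h)) =
      Algebra.norm K (AdjoinRoot.mk (cub a b c) h) := by
  have := Algebra.norm_eq_of_algEquiv (AlgEquiv.ofBijective _ (fwd_bij hδ a b c))
    (AdjoinRoot.mk _ h)
  rw [← this]
  rfl

theorem quot_equiv {δ : K} (hδ : δ ≠ 0) (a b c : K) (m : K[X])
    (hm : m = cub (δ * a) (δ ^ 2 * b) (δ ^ 3 * c)) :
    ∃ e : ((AdjoinRoot (cub a b c))ˣ ⧸ (powMonoidHom 2 : (AdjoinRoot (cub a b c))ˣ →* _).range) ≃*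
      ((AdjoinRoot m)ˣ ⧸ (powMonoidHom 2 : (AdjoinRoot m)ˣ →* _).range),
      ∀ (u : (AdjoinRoot (cub a b c))ˣ) (u' : (AdjoinRoot m)ˣ) (h : K[X]),
        (u : AdjoinRoot (cub a b c)) = AdjoinRoot.mk (cub a b c) h →
        (u' : AdjoinRoot m) = AdjoinRoot.mk m (sc δ h) →
        e (QuotientGroup.mk u) = QuotientGroup.mk u' := by
  subst hm
  let e1 : AdjoinRoot (cub a b c) ≃* AdjoinRoot (cub (δ * a) (δ ^ 2 * b) (δ ^ 3 * c)) :=
    (AlgEquiv.ofBijective _ (fwd_bij hδ a b c)).toMulEquiv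
  let e2 := Units.mapEquiv e1
  refine ⟨QuotientGroup.congr _ _ e2 ?_, ?_⟩
  · ext x
    constructor
    · rintro ⟨y, ⟨z, rfl⟩, rfl⟩
      exact ⟨e2 z, by simp⟩
    · rintro ⟨z, rfl⟩
      refine ⟨(e2.symm z) ^ 2, ⟨e2.symm z, rfl⟩, ?_⟩
      simp
  · intro u u' h hu hu'
    rw [QuotientGroup.congr_mk]
    congr 1
    apply Units.ext
    rw [hu']
    change e1 (u : AdjoinRoot (cub a b c)) = _
    rw [hu]
    rfl

theorem locSol_iff {δ : K} (hδ : δ ≠ 0) (a b c : K) (g g' : K[X]) (hg : g'.comp (C δ * X) = g) :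
    LocSol (δ * a) (δ ^ 2 * b) (δ ^ 3 * c) g' ↔
      ∃ x y : K, OnC (δ * a) (δ ^ 2 * b) (δ ^ 3 * c) x y ∧ y ≠ 0 ∧
        ∃ s : K[X], cub a b c ∣ (C x - C δ * X) - g * s ^ 2 := by
  constructor
  · rintro ⟨x, y, h1, h2, s, hs⟩
    refine ⟨x, y, h1, h2, s.comp (C δ * X), ?_⟩
    rw [dvd_iff hδ] at hs
    simpa only [sub_comp, mul_comp, pow_comp, C_comp, X_comp, hg] using hs
  · rintro ⟨x, y, h1, h2, s, hs⟩
    refine ⟨x, y, h1, h2, sc δ s, ?_⟩
    rw [dvd_iff hδ]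
    simpa only [sub_comp, mul_comp, pow_comp, C_comp, X_comp, hg, sc_comp hδ] using hs

theorem repH_iff {δ : K} (hδ : δ ≠ 0) (a b c : K) (h : K[X])
    (G B : Matrix (Fin 3) (Fin 3) K) :
    RepH (δ * a) (δ ^ 2 * b) (δ ^ 3 * c) (sc δ h) G (δ • B) ↔ RepH a b c h G B := by
  have hlin : ∀ (x : K) (p : K[X]), tau a b c (C x * p) = x * tau a b c p := by
    intro x p
    rw [← COR.T_mk, ← COR.T_mk, ← smul_eq_C_mul, ← smul_eq_mul, ← map_smul]
    rfl
  constructor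
  · rintro ⟨e, h1, h2⟩
    refine ⟨fun i => C δ⁻¹ * (e i).comp (C δ * X), fun i j => ?_, fun i j => ?_⟩
    · have h3 : C δ⁻¹ * (e i).comp (C δ * X) * (C δ⁻¹ * (e j).comp (C δ * X)) * h =
          C (δ⁻¹ ^ 2) * (e i * e j * sc δ h).comp (C δ * X) := by
        simp only [mul_comp, sc_comp hδ, C_pow]
        ring
      rw [h3, hlin, tau_comp, h1]
      field_simp
    · have h3 : X * (C δ⁻¹ * (e i).comp (C δ * X) * (C δ⁻¹ * (e j).comp (C δ * X)) * h) =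
          C (δ⁻¹ ^ 3) * (X * (e i * e j * sc δ h)).comp (C δ * X) := by
        have h4 : (C δ⁻¹ : K[X]) * C δ = 1 := by rw [← C_mul, inv_mul_cancel₀ hδ, C_1]
        simp only [mul_comp, sc_comp hδ, C_pow, X_comp]
        linear_combination (-(X * C δ⁻¹ ^ 2 * (e i).comp (C δ * X) * (e j).comp (C δ * X) * h)) *
          h4
      rw [h3, hlin, tau_comp, h2, Matrix.smul_apply, smul_eq_mul]
      field_simp
  · rintro ⟨e, h1, h2⟩
    refine ⟨fun i => C δ * sc δ (e i), fun i j => ?_, fun i j => ?_⟩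
    · have h3 : (C δ * sc δ (e i) * (C δ * sc δ (e j)) * sc δ h).comp (C δ * X) =
          C (δ ^ 2) * (e i * e j * h) := by
        simp only [mul_comp, sc_comp hδ, C_pow, C_comp]
        ring
      have h4 := tau_comp (δ := δ) a b c (C δ * sc δ (e i) * (C δ * sc δ (e j)) * sc δ h)
      rw [h3, hlin, h1] at h4
      exact (mul_left_cancel₀ (pow_ne_zero 2 hδ) h4).symm
    · have h3 : (X * (C δ * sc δ (e i) * (C δ * sc δ (e j)) * sc δ h)).comp (C δ * X) =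
          C (δ ^ 3) * (X * (e i * e j * h)) := by
        simp only [mul_comp, sc_comp hδ, C_pow, C_comp, X_comp]
        ring
      have h4 := tau_comp (δ := δ) a b c (X * (C δ * sc δ (e i) * (C δ * sc δ (e j)) * sc δ h))
      rw [h3, hlin, h2] at h4
      rw [Matrix.smul_apply, smul_eq_mul]
      apply mul_left_cancel₀ (pow_ne_zero 2 hδ)
      rw [← h4]
      ring

end General

end SCD

open SCD in
theorem scd_thm : SCDStmt := by
  intro F _ d f hd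
  have hδ : rf d ≠ 0 := by simpa using hd
  have hsc : ∀ h, scd d h = sc (rf d) h := fun _ => rfl
  have k1 : (kf (tw d f)).1 = rf d * (kf f).1 := map_mul _ _ _
  have k2 : (kf (tw d f)).2.1 = rf d ^ 2 * (kf f).2.1 := by
    change algebraMap F[X] (RatFunc F) (d ^ 2 * f.2.1) = _
    rw [map_mul, map_pow]
    rfl
  have k3 : (kf (tw d f)).2.2 = rf d ^ 3 * (kf f).2.2 := by
    change algebraMap F[X] (RatFunc F) (d ^ 3 * f.2.2) = _
    rw [map_mul, map_pow]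
    rfl
  have kc : cubK (tw d f) = cub (rf d * (kf f).1) (rf d ^ 2 * (kf f).2.1)
      (rf d ^ 3 * (kf f).2.2) := by
    rw [← k1, ← k2, ← k3]
    rfl
  refine ⟨fun h => ⟨sc_comp hδ h, comp_sc hδ h⟩, fun h => ⟨?_, ?_, ?_, ?_⟩, ?_⟩
  · rw [kc, hsc]
    exact norm_sc hδ _ _ _ h
  · rw [kc, hsc]
    exact coprime_iff hδ _ _ _ h
  · intro L _ ι
    have hι : ι (rf d) ≠ 0 := by simpa using hδ
    have j1 : ι (kf (tw d f)).1 = ι (rf d) * ι (kf f).1 := by rw [k1, map_mul]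
    have j2 : ι (kf (tw d f)).2.1 = ι (rf d) ^ 2 * ι (kf f).2.1 := by rw [k2, map_mul, map_pow]
    have j3 : ι (kf (tw d f)).2.2 = ι (rf d) ^ 3 * ι (kf f).2.2 := by rw [k3, map_mul, map_pow]
    have hg : ((scd d h).map ι).comp (C (ι (rf d)) * X) = h.map ι := by
      have h1 : (C (ι (rf d)) * X : L[X]) = (C (rf d) * X : (RatFunc F)[X]).map ι := by
        rw [Polynomial.map_mul, map_C, map_X]
      rw [h1, ← Polynomial.map_comp, hsc, sc_comp hδ]
    have h2 := locSol_iff hι (ι (kf f).1) (ι (kf f).2.1) (ι (kf f).2.2) (h.map ι)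
      ((scd d h).map ι) hg
    have h3 : (cubK f).map ι = cub (ι (kf f).1) (ι (kf f).2.1) (ι (kf f).2.2) := by
      simp [cubK, cub, kf]
    rw [j1, j2, j3, h2]
    unfold LSD
    rw [h3, j1, j2, j3]
  · intro G B
    rw [k1, k2, k3, hsc]
    exact repH_iff hδ _ _ _ h G B
  · exact quot_equiv hδ (kf f).1 (kf f).2.1 (kf f).2.2 (cubK (tw d f)) kc

end Pool.PRL
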